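import Pool.Agent.Helper57.QZ.Stmts2

set_option autoImplicit false

namespace Pool.Agent.Helper66.Q2

open Pool.Agent.Helper57.QZ MeasureTheory Set Filter Topology

lemma st_aa {σ : ℝ} (hσ : 0 ≤ σ) {y : ℕ} (p : Pr y) : 0 ≤ aa σ p ∧ aa σ p ≤ 1 := by
  have hp : (1 : ℝ) ≤ ((p : ℕ) : ℝ) := by
    exact_mod_cast (Nat.prime_of_mem_primesBelow p.2).one_lt.le
  refine ⟨?_, ?_⟩
  · exact Real.rpow_nonneg (by linarith) _
  · exact Real.rpow_le_one_of_one_le_of_nonpos hp (by linarith)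

theorem st_of (h1 : ST_UT) (h2 : ST_VM3) : ST_ST := by
  intro y k σ s h T hσ hs hh hy hk hT hv hTT
  have hmu : 0 ≤ muy y σ s := by
    refine Finset.sum_nonneg fun p _ => ?_
    have ha := (st_aa hσ p).1
    exact mul_nonneg ha (h2.2 _ (mul_nonneg hs ha)).1
  have hU := h1 y k (fun p => aa σ p) 0 s (muy y σ s + h) T hy hk (fun p => st_aa hσ p) hs
    (by linarith) hv hT hTT
  have e1 : (∑ p : Pr y, ell (s * aa σ p)) - s * (muy y σ s + h) = -(Ly y σ s) - s * h := by
    unfold Ly muy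
    rw [Finset.sum_sub_distrib, mul_add, Finset.mul_sum]
    have : ∑ p : Pr y, s * (aa σ p * rr (s * aa σ p)) = ∑ p : Pr y, s * aa σ p * rr (s * aa σ p) :=
      Finset.sum_congr rfl fun p _ => by ring
    rw [this]
    ring
  rw [e1] at hU
  simpa only [Sy, add_zero] using hU

end Pool.Agent.Helper66.Q2
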